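import Pool.Agent.Helper41.Potts.CensoredLaw

open Finset

namespace Pool.Agent.Helper41.Potts

variable {q : ℕ}

/-- the event on (centre; leaves 2,3,4) -/
def chi (g c a b d : Fin q) : Prop :=
  (a ≠ g ∧ b = a ∧ d = a) ∨
  (c ≠ g ∧ ((a = c ∧ b = c ∧ d ≠ c ∧ d ≠ g) ∨ (a = c ∧ d = c ∧ b ≠ c ∧ b ≠ g) ∨
    (b = c ∧ d = c ∧ a ≠ c ∧ a ≠ g)))

instance (g c a b d : Fin q) : Decidable (chi g c a b d) := by unfold chi; infer_instance

def Gam (g : Fin q) (σ : Fin 11 → Fin q) : Prop :=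
  σ 5 = g ∧ σ 6 = g ∧ σ 7 = g ∧ σ 8 = g ∧ σ 9 = g ∧ σ 10 = g

instance (g : Fin q) (σ : Fin 11 → Fin q) : Decidable (Gam g σ) := by unfold Gam; infer_instance

def BB (g : Fin q) : Finset (Fin 11 → Fin q) :=
  Finset.univ.filter fun σ => ¬ Gam g σ ∨ chi g (σ 0) (σ 2) (σ 3) (σ 4)

def ff (g : Fin q) (σ : Fin 11 → Fin q) : ℝ := if σ ∈ BB g then 1 else 0

lemma sum_BB (g : Fin q) (μ : (Fin 11 → Fin q) → ℝ) :
    ∑ σ ∈ BB g, μ σ = ∑ σ, μ σ * ff g σ := by
  unfold ff
  simp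

lemma sum_fold (β : ℝ) (vs : List (Fin 11)) (μ0 f : (Fin 11 → Fin q) → ℝ) :
    ∑ σ, (vs.foldl (step tree β) μ0) σ * f σ = ∑ σ, μ0 σ * (vs.foldr (avg tree β) f) σ := by
  induction vs generalizing μ0 with
  | nil => rfl
  | cons v vs ih =>
    simp only [List.foldl_cons, List.foldr_cons]
    rw [ih, duality]

lemma sum_law (β : ℝ) (g : Fin q) (vs : List (Fin 11)) (f : (Fin 11 → Fin q) → ℝ) :
    ∑ σ, law tree β g vs σ * f σ = (vs.foldr (avg tree β) f) (fun _ => g) := by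
  unfold law
  rw [sum_fold]
  rw [Finset.sum_eq_single (fun _ => g)]
  · simp
  · intro σ _ h
    rw [Pi.single_eq_of_ne h]; simp
  · intro h; exact absurd (mem_univ _) h

lemma avg_ratio (β : ℝ) (v : Fin 11) (f : (Fin 11 → Fin q) → ℝ) (σ : Fin 11 → Fin q) :
    avg tree β v f σ = ∑ c : Fin q, ratio (Real.exp β) v (Function.update σ v c) *
      f (Function.update σ v c) := by
  unfold avg
  rw [Finset.sum_div]
  refine Finset.sum_congr rfl fun c _ => ?_
  rw [← potts_ratio]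
  simp only [Function.update_idem]
  ring

lemma avg_const_coord (β : ℝ) (v : Fin 11) (f : (Fin 11 → Fin q) → ℝ)
    (h : ∀ σ c, f (Function.update σ v c) = f σ) : avg tree β v f = f := by
  funext σ
  unfold avg
  simp_rw [h]
  rw [← Finset.sum_mul]
  rcases Nat.eq_zero_or_pos q with hq | hq
  · subst hq; exact (σ 0).elim0
  · have : NeZero q := ⟨hq.ne'⟩
    have : (∑ c : Fin q, potts tree β (Function.update σ v c)) ≠ 0 :=
      (Finset.sum_pos (fun c _ => potts_pos tree β _) ⟨0, mem_univ _⟩).ne'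
    field_simp

/-- probability of the event given leaves -/
noncomputable def phi (x : ℝ) (g e a b d : Fin q) : ℝ :=
  (∑ c : Fin q, ps x c e * ps x c a * ps x c b * ps x c d * (if chi g c a b d then 1 else 0)) /
    S4 x e a b d

lemma avg01 (β : ℝ) (g : Fin q) (σ : Fin 11 → Fin q) (h : Gam g σ) :
    avg tree β 0 (avg tree β 1 (ff g)) σ = phi (Real.exp β) g (σ 1) (σ 2) (σ 3) (σ 4) := by
  have h1 : avg tree β 1 (ff g) = ff g := by
    apply avg_const_coord
    intro σ c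
    simp [ff, BB, Gam]
  rw [h1, avg_ratio]
  unfold phi
  rw [Finset.sum_div]
  refine Finset.sum_congr rfl fun c _ => ?_
  rw [ratio_center (Real.exp_pos β)]
  have h2 : ff g (Function.update σ 0 c) = if chi g c (σ 2) (σ 3) (σ 4) then 1 else 0 := by
    unfold Gam at h
    simp [ff, BB, Gam, h]
  rw [h2]
  split_ifs <;> simp

lemma gam_update (g : Fin q) (σ : Fin 11 → Fin q) (h : Gam g σ) (v : Fin 11)
    (hv : v = 1 ∨ v = 2 ∨ v = 3 ∨ v = 4) (c : Fin q) : Gam g (Function.update σ v c) := by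
  unfold Gam at *
  rcases hv with rfl | rfl | rfl | rfl <;> simpa using h

noncomputable def rho (x : ℝ) (g a : Fin q) : ℝ := ps x g a / (x + q - 1)

lemma F4_eq (β : ℝ) (g : Fin q) (σ : Fin 11 → Fin q) (h : Gam g σ) (h0 : σ 0 = g) :
    avg tree β 2 (avg tree β 3 (avg tree β 4 (avg tree β 0 (avg tree β 1 (ff g))))) σ =
    ∑ a, ∑ b, ∑ d, rho (Real.exp β) g a * rho (Real.exp β) g b * rho (Real.exp β) g d *
      phi (Real.exp β) g (σ 1) a b d := by
  have hx := Real.exp_pos β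
  rw [avg_ratio]
  refine Finset.sum_congr rfl fun a _ => ?_
  have ha := gam_update g σ h 2 (by simp) a
  rw [avg_ratio, Finset.mul_sum]
  refine Finset.sum_congr rfl fun b _ => ?_
  have hb := gam_update g _ ha 3 (by simp) b
  rw [avg_ratio, Finset.mul_sum, Finset.mul_sum]
  refine Finset.sum_congr rfl fun d _ => ?_
  have hd := gam_update g _ hb 4 (by simp) d
  rw [avg01 β g _ hd]
  rw [ratio_leaf hx 2 (by simp), ratio_leaf hx 3 (by simp), ratio_leaf hx 4 (by simp)]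
  unfold rho
  simp [h0]
  ring

end Pool.Agent.Helper41.Potts
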