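import Pool.Agent.Helper41.Potts.Partition

open Finset

namespace Pool.Agent.Helper41.Potts

variable {q : ℕ}

/-- indicator that the frozen part is green -/
def II (g : Fin q) (σ : Fin 11 → Fin q) : ℝ :=
  dl (σ 5) g * dl (σ 6) g * dl (σ 7) g * dl (σ 8) g * dl (σ 9) g * dl (σ 10) g

lemma step_ratio (β : ℝ) (μ : (Fin 11 → Fin q) → ℝ) (v : Fin 11) (τ : Fin 11 → Fin q) :
    step tree β μ v τ = (∑ c : Fin q, μ (Function.update τ v c)) * ratio (Real.exp β) v τ := by
  rw [step_eq, potts_ratio]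

lemma init_eq (g : Fin q) (σ : Fin 11 → Fin q) :
    (Pi.single (fun _ => g) 1 : (Fin 11 → Fin q) → ℝ) σ =
      dl (σ 0) g * dl (σ 1) g * dl (σ 2) g * dl (σ 3) g * dl (σ 4) g * II g σ := by
  unfold II dl
  by_cases h : σ = fun _ => g
  · subst h
    simp
  · rw [Pi.single_eq_of_ne h]
    have : ∃ i, σ i ≠ g := by
      by_contra hc
      push Not at hc
      exact h (funext hc)
    obtain ⟨i, hi⟩ := this
    symm
    fin_cases i <;> simp_all

/-- closed form of the censored law -/
noncomputable def lw (x : ℝ) (g : Fin q) (σ : Fin 11 → Fin q) : ℝ :=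
  (ps x g (σ 2) / (x + q - 1)) * (ps x g (σ 3) / (x + q - 1)) * (ps x g (σ 4) / (x + q - 1)) *
  ((ps x (σ 0) g * ps x (σ 0) (σ 2) * ps x (σ 0) (σ 3) * ps x (σ 0) (σ 4)) /
      S4 x g (σ 2) (σ 3) (σ 4)) *
  ((ps x (σ 0) (σ 1) * ps x (σ 1) (σ 5)) / S2 x (σ 0) (σ 5)) * II g σ

lemma dl_mul_ps (x : ℝ) (a g b : Fin q) : dl a g * ps x a b = dl a g * ps x g b := by
  unfold dl; split_ifs with h
  · rw [h]
  · simp

lemma law_w (β : ℝ) (g : Fin q) (σ : Fin 11 → Fin q) :
    law tree β g [2, 3, 4, 0, 1] σ = lw (Real.exp β) g σ := by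
  set x := Real.exp β with hx
  have hx0 : 0 < x := Real.exp_pos β
  unfold law
  simp only [List.foldl_cons, List.foldl_nil]
  -- stage 1
  have m1 : step tree β (Pi.single (fun _ => g) 1) 2 = fun σ : Fin 11 → Fin q =>
      dl (σ 0) g * dl (σ 1) g * (ps x g (σ 2) / (x + q - 1)) * dl (σ 3) g * dl (σ 4) g * II g σ := by
    funext τ
    rw [step_ratio, ratio_leaf hx0 2 (by simp)]
    simp_rw [init_eq]
    have : ∀ c : Fin q, dl (Function.update τ 2 c 0) g * dl (Function.update τ 2 c 1) g *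
        dl (Function.update τ 2 c 2) g * dl (Function.update τ 2 c 3) g *
        dl (Function.update τ 2 c 4) g * II g (Function.update τ 2 c)
        = dl c g * (dl (τ 0) g * dl (τ 1) g * dl (τ 3) g * dl (τ 4) g * II g τ) := by
      intro c; simp [II]; ring
    simp_rw [this]
    rw [← Finset.sum_mul, sum_dl]
    have h2 := dl_mul_ps x (τ 0) g (τ 2)
    calc _ = (dl (τ 0) g * ps x (τ 0) (τ 2)) / (x + q - 1) *
          (dl (τ 1) g * dl (τ 3) g * dl (τ 4) g * II g τ) := by ring
      _ = _ := by rw [h2]; ring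
  rw [m1]
  have m2 : step tree β (fun σ : Fin 11 → Fin q =>
      dl (σ 0) g * dl (σ 1) g * (ps x g (σ 2) / (x + q - 1)) * dl (σ 3) g * dl (σ 4) g * II g σ) 3
      = fun σ : Fin 11 → Fin q =>
      dl (σ 0) g * dl (σ 1) g * (ps x g (σ 2) / (x + q - 1)) * (ps x g (σ 3) / (x + q - 1)) *
        dl (σ 4) g * II g σ := by
    funext τ
    rw [step_ratio, ratio_leaf hx0 3 (by simp)]
    have : ∀ c : Fin q, dl (Function.update τ 3 c 0) g * dl (Function.update τ 3 c 1) g *
        (ps x g (Function.update τ 3 c 2) / (x + q - 1)) * dl (Function.update τ 3 c 3) g *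
        dl (Function.update τ 3 c 4) g * II g (Function.update τ 3 c)
        = dl c g * (dl (τ 0) g * dl (τ 1) g * (ps x g (τ 2) / (x + q - 1)) *
          dl (τ 4) g * II g τ) := by
      intro c; simp [II]; ring
    simp_rw [this]
    rw [← Finset.sum_mul, sum_dl]
    have h2 := dl_mul_ps x (τ 0) g (τ 3)
    calc _ = (dl (τ 0) g * ps x (τ 0) (τ 3)) / (x + q - 1) *
          (dl (τ 1) g * (ps x g (τ 2) / (x + q - 1)) * dl (τ 4) g * II g τ) := by ring
      _ = _ := by rw [h2]; ring
  rw [m2]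
  have m3 : step tree β (fun σ : Fin 11 → Fin q =>
      dl (σ 0) g * dl (σ 1) g * (ps x g (σ 2) / (x + q - 1)) * (ps x g (σ 3) / (x + q - 1)) *
        dl (σ 4) g * II g σ) 4
      = fun σ : Fin 11 → Fin q =>
      dl (σ 0) g * dl (σ 1) g * ((ps x g (σ 2) / (x + q - 1)) * (ps x g (σ 3) / (x + q - 1)) *
        (ps x g (σ 4) / (x + q - 1)) * II g σ) := by
    funext τ
    rw [step_ratio, ratio_leaf hx0 4 (by simp)]
    have : ∀ c : Fin q, dl (Function.update τ 4 c 0) g * dl (Function.update τ 4 c 1) g *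
        (ps x g (Function.update τ 4 c 2) / (x + q - 1)) *
        (ps x g (Function.update τ 4 c 3) / (x + q - 1)) *
        dl (Function.update τ 4 c 4) g * II g (Function.update τ 4 c)
        = dl c g * (dl (τ 0) g * dl (τ 1) g * (ps x g (τ 2) / (x + q - 1)) *
          (ps x g (τ 3) / (x + q - 1)) * II g τ) := by
      intro c; simp [II]; ring
    simp_rw [this]
    rw [← Finset.sum_mul, sum_dl]
    have h2 := dl_mul_ps x (τ 0) g (τ 4)
    calc _ = (dl (τ 0) g * ps x (τ 0) (τ 4)) / (x + q - 1) *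
          (dl (τ 1) g * (ps x g (τ 2) / (x + q - 1)) * (ps x g (τ 3) / (x + q - 1)) * II g τ) := by
            ring
      _ = _ := by rw [h2]; ring
  rw [m3]
  have m4 : step tree β (fun σ : Fin 11 → Fin q =>
      dl (σ 0) g * dl (σ 1) g * ((ps x g (σ 2) / (x + q - 1)) * (ps x g (σ 3) / (x + q - 1)) *
        (ps x g (σ 4) / (x + q - 1)) * II g σ)) 0
      = fun σ : Fin 11 → Fin q =>
      dl (σ 1) g * ((ps x g (σ 2) / (x + q - 1)) * (ps x g (σ 3) / (x + q - 1)) *
        (ps x g (σ 4) / (x + q - 1)) * II g σ) *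
        ((ps x (σ 0) g * ps x (σ 0) (σ 2) * ps x (σ 0) (σ 3) * ps x (σ 0) (σ 4)) /
          S4 x g (σ 2) (σ 3) (σ 4)) := by
    funext τ
    rw [step_ratio, ratio_center hx0]
    have : ∀ c : Fin q, dl (Function.update τ 0 c 0) g * dl (Function.update τ 0 c 1) g *
        ((ps x g (Function.update τ 0 c 2) / (x + q - 1)) *
        (ps x g (Function.update τ 0 c 3) / (x + q - 1)) *
        (ps x g (Function.update τ 0 c 4) / (x + q - 1)) * II g (Function.update τ 0 c))
        = dl c g * (dl (τ 1) g * ((ps x g (τ 2) / (x + q - 1)) *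
          (ps x g (τ 3) / (x + q - 1)) * (ps x g (τ 4) / (x + q - 1)) * II g τ)) := by
      intro c; simp [II]; ring
    simp_rw [this]
    rw [← Finset.sum_mul, sum_dl]
    by_cases h1 : τ 1 = g
    · rw [h1]; ring
    · have : dl (τ 1) g = 0 := by simp [dl, h1]
      rw [this]; ring
  rw [m4]
  rw [step_ratio, ratio_one hx0]
  have : ∀ c : Fin q, dl (Function.update σ 1 c 1) g *
      ((ps x g (Function.update σ 1 c 2) / (x + q - 1)) *
      (ps x g (Function.update σ 1 c 3) / (x + q - 1)) *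
      (ps x g (Function.update σ 1 c 4) / (x + q - 1)) * II g (Function.update σ 1 c)) *
      ((ps x (Function.update σ 1 c 0) g * ps x (Function.update σ 1 c 0) (Function.update σ 1 c 2) *
        ps x (Function.update σ 1 c 0) (Function.update σ 1 c 3) *
        ps x (Function.update σ 1 c 0) (Function.update σ 1 c 4)) /
          S4 x g (Function.update σ 1 c 2) (Function.update σ 1 c 3) (Function.update σ 1 c 4))
      = dl c g * (((ps x g (σ 2) / (x + q - 1)) *
          (ps x g (σ 3) / (x + q - 1)) * (ps x g (σ 4) / (x + q - 1)) * II g σ) *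
          ((ps x (σ 0) g * ps x (σ 0) (σ 2) * ps x (σ 0) (σ 3) * ps x (σ 0) (σ 4)) /
          S4 x g (σ 2) (σ 3) (σ 4))) := by
    intro c; simp [II]; ring
  simp_rw [this]
  rw [← Finset.sum_mul, sum_dl]
  unfold lw
  ring

end Pool.Agent.Helper41.Potts
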