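import Mathlib

/-!
# The Potts model and its single-site heat-bath dynamics

Definitions used in the statement on the failure of the censoring inequality.
-/

namespace Pool.Agent.Helper41.Potts

section Defs
variable {V : Type} [Fintype V] [DecidableEq V] {q : ℕ}

/-- The number of edges of `G` whose two endpoints receive the same colour under `σ`. -/
def monoEdges (G : SimpleGraph V) [DecidableRel G.Adj] (σ : V → Fin q) : ℕ :=
  (G.edgeFinset.filter fun e => (e.map σ).IsDiag).card

/-- The `q`-state Potts measure on `G` at inverse temperature `β`: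
`π(σ)` is proportional to `exp (β * #{monochromatic edges})`. -/
noncomputable def potts (G : SimpleGraph V) [DecidableRel G.Adj] (β : ℝ) (σ : V → Fin q) : ℝ :=
  Real.exp (β * (monoEdges G σ : ℝ)) / ∑ τ : V → Fin q, Real.exp (β * (monoEdges G τ : ℝ))

/-- The heat-bath kernel `P_v(σ, τ)`: keep all spins off `v` and resample the spin at `v` from its
conditional law under the Potts measure given the other spins. -/
noncomputable def heatBath (G : SimpleGraph V) [DecidableRel G.Adj] (β : ℝ) (v : V)
    (σ τ : V → Fin q) : ℝ :=
  if ∀ u, u ≠ v → τ u = σ u then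
    potts G β τ / ∑ c : Fin q, potts G β (Function.update σ v c)
  else 0

/-- One update at `v`: the row vector `μ P_v`. -/
noncomputable def step (G : SimpleGraph V) [DecidableRel G.Adj] (β : ℝ)
    (μ : (V → Fin q) → ℝ) (v : V) : (V → Fin q) → ℝ :=
  fun τ => ∑ σ : V → Fin q, μ σ * heatBath G β v σ τ

/-- The law `δ P_{v_1} P_{v_2} ... P_{v_T}` of the dynamics started from the configuration
that is constantly equal to the colour `g`, with updates at the sites `vs = [v_1, ..., v_T]`. -/
noncomputable def law (G : SimpleGraph V) [DecidableRel G.Adj] (β : ℝ) (g : Fin q)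
    (vs : List V) : (V → Fin q) → ℝ :=
  vs.foldl (step G β) (Pi.single (fun _ => g) 1)

end Defs

/-- Total variation distance `max_A |μ(A) - ν(A)|`. -/
noncomputable def tvDist {Ω : Type} [Fintype Ω] [DecidableEq Ω] (μ ν : Ω → ℝ) : ℝ :=
  ⨆ A : Finset Ω, |∑ σ ∈ A, μ σ - ∑ σ ∈ A, ν σ|

end Pool.Agent.Helper41.Potts
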