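import Pool.Agent.Helper41.Potts.Backward

open Finset

namespace Pool.Agent.Helper41.Potts

variable {q : ℕ}

lemma chi_swap23 (g c a b d : Fin q) : chi g c a b d ↔ chi g c a d b := by
  unfold chi
  constructor
  · rintro (⟨h1, rfl, rfl⟩ | ⟨h0, ⟨rfl, rfl, h1, h2⟩ | ⟨rfl, rfl, h1, h2⟩ | ⟨rfl, rfl, h1, h2⟩⟩) <;>
      simp_all
  · rintro (⟨h1, rfl, rfl⟩ | ⟨h0, ⟨rfl, rfl, h1, h2⟩ | ⟨rfl, rfl, h1, h2⟩ | ⟨rfl, rfl, h1, h2⟩⟩) <;>
      simp_all

lemma chi_swap12 (g c a b d : Fin q) : chi g c a b d ↔ chi g c b a d := by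
  unfold chi
  constructor
  · rintro (⟨h1, rfl, rfl⟩ | ⟨h0, ⟨rfl, rfl, h1, h2⟩ | ⟨rfl, rfl, h1, h2⟩ | ⟨rfl, rfl, h1, h2⟩⟩) <;>
      simp_all
  · rintro (⟨h1, rfl, rfl⟩ | ⟨h0, ⟨rfl, rfl, h1, h2⟩ | ⟨rfl, rfl, h1, h2⟩ | ⟨rfl, rfl, h1, h2⟩⟩) <;>
      simp_all

lemma S4_swap23 (x : ℝ) (e a b d : Fin q) : S4 x e a b d = S4 x e a d b := by
  unfold S4; exact Finset.sum_congr rfl fun c _ => by ring

lemma S4_swap12 (x : ℝ) (e a b d : Fin q) : S4 x e a b d = S4 x e b a d := by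
  unfold S4; exact Finset.sum_congr rfl fun c _ => by ring

lemma phi_swap23 (x : ℝ) (g e a b d : Fin q) : phi x g e a b d = phi x g e a d b := by
  unfold phi
  rw [S4_swap23]
  congr 1
  refine Finset.sum_congr rfl fun c _ => ?_
  simp only [chi_swap23 g c a b d]
  ring

lemma phi_swap12 (x : ℝ) (g e a b d : Fin q) : phi x g e a b d = phi x g e b a d := by
  unfold phi
  rw [S4_swap12]
  congr 1
  refine Finset.sum_congr rfl fun c _ => ?_
  simp only [chi_swap12 g c a b d]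
  ring

lemma phi_A {x : ℝ} (hx : 0 < x) (g e a : Fin q) (h : a ≠ g) : phi x g e a a a = 1 := by
  unfold phi
  have : ∀ c, chi g c a a a := fun c => Or.inl ⟨h, rfl, rfl⟩
  simp only [this, if_true, mul_one]
  exact div_self (S4_pos hx e a a a).ne'

lemma phi_zero (x : ℝ) (g e a b d : Fin q) (h : ∀ c, ¬ chi g c a b d) : phi x g e a b d = 0 := by
  unfold phi
  simp [h]

lemma phi_B {x : ℝ} (g e m t : Fin q) (hm : m ≠ g) (ht : t ≠ g) (hmt : t ≠ m) :
    phi x g e m m t = ps x m e * x ^ 2 / S4 x e m m t := by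
  unfold phi
  congr 1
  rw [Finset.sum_eq_single m]
  · have : chi g m m m t := Or.inr ⟨hm, Or.inl ⟨rfl, rfl, hmt, ht⟩⟩
    rw [if_pos this]
    have h1 : ps x m m = x := by simp [ps]
    have h2 : ps x m t = 1 := by simp [ps, hmt.symm]
    rw [h1, h2]; ring
  · intro c _ hc
    have : ¬ chi g c m m t := by
      unfold chi
      rintro (⟨h1, h2, h3⟩ | ⟨h0, ⟨h1, h2, h3, h4⟩ | ⟨h1, h2, h3, h4⟩ | ⟨h1, h2, h3, h4⟩⟩)
      · exact hmt h3
      · exact hc h1.symm
      · exact hc h1.symm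
      · exact hc h1.symm
    rw [if_neg this]; ring
  · intro h; exact absurd (mem_univ _) h

/-- gap -/
noncomputable def gap (x : ℝ) (g a b d : Fin q) : ℝ :=
  phi x g g a b d - ∑ e, (ps x g e * ps x e g / S2 x g g) * phi x g e a b d

lemma gap_swap23 (x : ℝ) (g a b d : Fin q) : gap x g a b d = gap x g a d b := by
  unfold gap
  simp_rw [phi_swap23 x g _ a b d]

lemma gap_swap12 (x : ℝ) (g a b d : Fin q) : gap x g a b d = gap x g b a d := by
  unfold gap
  simp_rw [phi_swap12 x g _ a b d]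

lemma sum_rho1 {x : ℝ} (hx : 0 < x) (g : Fin q) :
    ∑ e, (ps x g e * ps x e g / S2 x g g) = 1 := by
  rw [← Finset.sum_div]
  exact div_self (S2_pos hx g g).ne'

lemma gap_A {x : ℝ} (hx : 0 < x) (g a : Fin q) (h : a ≠ g) : gap x g a a a = 0 := by
  unfold gap
  simp_rw [phi_A hx g _ a h, mul_one]
  rw [sum_rho1 hx]; ring

lemma gap_zero (x : ℝ) (g a b d : Fin q) (h : ∀ c, ¬ chi g c a b d) : gap x g a b d = 0 := by
  unfold gap
  simp_rw [phi_zero x g _ a b d h]
  simp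

lemma poly1 (p x : ℝ) (hp : 1 ≤ p) (hx : 2 * p + 4 ≤ x) :
    0 < x ^ 5 - 6 * x ^ 4 + (6 - 2 * p) * x ^ 3 + (p - 2) * x ^ 2 + (1 - p ^ 2) * x + p ^ 2 + p := by
  obtain ⟨u, hu⟩ : ∃ u, x = 2 * p + 4 + u := ⟨x - (2 * p + 4), by ring⟩
  obtain ⟨w, hw⟩ : ∃ w, p = 1 + w := ⟨p - 1, by ring⟩
  have hu0 : 0 ≤ u := by linarith
  have hw0 : 0 ≤ w := by linarith
  subst hu
  subst hw
  ring_nf
  positivity

lemma gap_B {x : ℝ} (hq : 3 ≤ q) (hxq : 2 * (q : ℝ) ≤ x) (g m t : Fin q) (hm : m ≠ g)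
    (ht : t ≠ g) (hmt : t ≠ m) : 0 < gap x g m m t := by
  have hq' : (3 : ℝ) ≤ q := by exact_mod_cast hq
  have hx : 0 < x := by linarith
  set Zs : ℝ := x ^ 2 + 2 * x + q - 3 with hZs
  set Y : ℝ := x ^ 3 + x + q - 2 with hY
  set U : ℝ := 2 * x ^ 2 + q - 2 with hU
  have hZpos : 0 < Zs := by rw [hZs]; nlinarith
  have hYpos : 0 < Y := by rw [hY]; have := pow_pos hx 3; linarith
  have hUpos : 0 < U := by rw [hU]; nlinarith
  have hR : S2 x g g = x ^ 2 + q - 1 := by rw [S2_eq]; simp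
  have hRpos : 0 < S2 x g g := S2_pos hx g g
  have hSg : S4 x g m m t = Zs := by
    rw [S4_eq]; simp [dl, hm.symm, ht.symm, hmt.symm]; rw [hZs]; ring
  have hSm : S4 x m m m t = Y := by
    rw [S4_eq]; simp [dl, hmt.symm]; rw [hY]; ring
  have hSt : S4 x t m m t = U := by
    rw [S4_eq]; simp [dl, hmt, hmt.symm]; rw [hU]; ring
  have hSo : ∀ e, e ≠ m → e ≠ t → S4 x e m m t = Zs := by
    intro e h1 h2
    rw [S4_eq]; simp [dl, h1, h2, hmt.symm]; rw [hZs]; ring
  have key : gap x g m m t = ∑ e, (ps x g e * ps x e g / S2 x g g) *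
      (phi x g g m m t - phi x g e m m t) := by
    unfold gap
    simp_rw [mul_sub, Finset.sum_sub_distrib]
    rw [← Finset.sum_mul, sum_rho1 hx]; ring
  rw [key]
  rw [Fintype.sum_eq_add m t hmt.symm]
  · rw [phi_B g g m t hm ht hmt, phi_B g m m t hm ht hmt, phi_B g t m t hm ht hmt, hSg, hSm, hSt, hR]
    have e1 : ps x g m = 1 := by simp [ps, hm.symm]
    have e2 : ps x m g = 1 := by simp [ps, hm]
    have e3 : ps x g t = 1 := by simp [ps, ht.symm]
    have e4 : ps x t g = 1 := by simp [ps, ht]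
    have e5 : ps x m m = x := by simp [ps]
    have e6 : ps x m t = 1 := by simp [ps, hmt.symm]
    rw [e1, e2, e3, e4, e5, e6]
    have hRp : 0 < x ^ 2 + q - 1 := by rw [← hR]; exact hRpos
    have main : 0 < 2 * Y * U - Zs * (x * U + Y) := by
      have := poly1 ((q : ℝ) - 2) x (by linarith) (by linarith)
      rw [hY, hU, hZs]
      nlinarith [this]
    have : 1 * 1 / (x ^ 2 + (q : ℝ) - 1) * (1 * x ^ 2 / Zs - x * x ^ 2 / Y) +
        1 * 1 / (x ^ 2 + (q : ℝ) - 1) * (1 * x ^ 2 / Zs - 1 * x ^ 2 / U) =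
        x ^ 2 * (2 * Y * U - Zs * (x * U + Y)) / ((x ^ 2 + (q : ℝ) - 1) * (Zs * Y * U)) := by
      field_simp
      ring
    rw [this]
    positivity
  · intro e he
    rw [phi_B g g m t hm ht hmt, phi_B g e m t hm ht hmt, hSg, hSo e he.1 he.2]
    have e2 : ps x m g = 1 := by simp [ps, hm]
    have e3 : ps x m e = 1 := by simp [ps, he.1.symm]
    rw [e2, e3]; ring

lemma gap_nonneg {x : ℝ} (hq : 3 ≤ q) (hxq : 2 * (q : ℝ) ≤ x) (g a b d : Fin q) :
    0 ≤ gap x g a b d := by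
  have hq' : (3 : ℝ) ≤ q := by exact_mod_cast hq
  have hx : 0 < x := by linarith
  by_cases hab : a = b
  · subst hab
    by_cases had : a = d
    · subst had
      by_cases hag : a = g
      · subst hag
        rw [gap_zero]
        intro c
        unfold chi
        rintro (⟨h1, h2, h3⟩ | ⟨h0, ⟨h1, h2, h3, h4⟩ | ⟨h1, h2, h3, h4⟩ | ⟨h1, h2, h3, h4⟩⟩)
        · exact h1 rfl
        · exact h4 rfl
        · exact h4 rfl
        · exact h4 rfl
      · rw [gap_A hx g a hag]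
    · by_cases hag : a = g
      · subst hag
        rw [gap_zero]
        intro c
        unfold chi
        rintro (⟨h1, h2, h3⟩ | ⟨h0, ⟨h1, h2, h3, h4⟩ | ⟨h1, h2, h3, h4⟩ | ⟨h1, h2, h3, h4⟩⟩)
        · exact h1 rfl
        · exact h0 h1.symm
        · exact h4 rfl
        · exact h4 rfl
      · by_cases hdg : d = g
        · subst hdg
          rw [gap_zero]
          intro c
          unfold chi
          rintro (⟨h1, h2, h3⟩ | ⟨h0, ⟨h1, h2, h3, h4⟩ | ⟨h1, h2, h3, h4⟩ | ⟨h1, h2, h3, h4⟩⟩)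
          · exact hag h3.symm
          · exact h4 rfl
          · exact h0 h2.symm
          · exact h0 h2.symm
        · exact (gap_B hq hxq g a d hag hdg (Ne.symm had)).le
  · by_cases had : a = d
    · subst had
      rw [gap_swap23]
      by_cases hag : a = g
      · subst hag
        rw [gap_zero]
        intro c
        unfold chi
        rintro (⟨h1, h2, h3⟩ | ⟨h0, ⟨h1, h2, h3, h4⟩ | ⟨h1, h2, h3, h4⟩ | ⟨h1, h2, h3, h4⟩⟩)
        · exact h1 rfl
        · exact h0 h1.symm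
        · exact h4 rfl
        · exact h4 rfl
      · by_cases hbg : b = g
        · subst hbg
          rw [gap_zero]
          intro c
          unfold chi
          rintro (⟨h1, h2, h3⟩ | ⟨h0, ⟨h1, h2, h3, h4⟩ | ⟨h1, h2, h3, h4⟩ | ⟨h1, h2, h3, h4⟩⟩)
          · exact hag h3.symm
          · exact h4 rfl
          · exact h0 h2.symm
          · exact h0 h2.symm
        · exact (gap_B hq hxq g a b hag hbg (Ne.symm hab)).le
    · by_cases hbd : b = d
      · subst hbd
        rw [gap_swap12, gap_swap23]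
        by_cases hbg : b = g
        · subst hbg
          rw [gap_zero]
          intro c
          unfold chi
          rintro (⟨h1, h2, h3⟩ | ⟨h0, ⟨h1, h2, h3, h4⟩ | ⟨h1, h2, h3, h4⟩ | ⟨h1, h2, h3, h4⟩⟩)
          · exact h1 rfl
          · exact h0 h1.symm
          · exact h4 rfl
          · exact h4 rfl
        · by_cases hag : a = g
          · subst hag
            rw [gap_zero]
            intro c
            unfold chi
            rintro (⟨h1, h2, h3⟩ | ⟨h0, ⟨h1, h2, h3, h4⟩ | ⟨h1, h2, h3, h4⟩ | ⟨h1, h2, h3, h4⟩⟩)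
            · exact hbg h3.symm
            · exact h4 rfl
            · exact h0 h2.symm
            · exact h0 h2.symm
          · exact (gap_B hq hxq g b a hbg hag hab).le
      · rw [gap_zero]
        intro c
        unfold chi
        rintro (⟨h1, h2, h3⟩ | ⟨h0, ⟨h1, h2, h3, h4⟩ | ⟨h1, h2, h3, h4⟩ | ⟨h1, h2, h3, h4⟩⟩)
        · exact hab h2.symm
        · exact hab (h1.trans h2.symm)
        · exact had (h1.trans h2.symm)
        · exact hbd (h1.trans h2.symm)

end Pool.Agent.Helper41.Potts
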