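import Pool.Agent.Helper41.Potts.Defs

open Finset

namespace Pool.Agent.Helper41.Potts

section General
variable {V : Type} [Fintype V] [DecidableEq V] {q : ℕ}

lemma sum_agree (τ : V → Fin q) (v : V) (F : (V → Fin q) → ℝ) :
    ∑ σ : V → Fin q, (if ∀ u, u ≠ v → τ u = σ u then F σ else 0)
      = ∑ c : Fin q, F (Function.update τ v c) := by
  rw [← Finset.sum_filter]
  have h : (Finset.univ.filter fun σ : V → Fin q => ∀ u, u ≠ v → τ u = σ u)
      = Finset.univ.image (fun c => Function.update τ v c) := by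
    ext σ
    simp only [mem_filter, mem_univ, true_and, mem_image]
    constructor
    · intro h
      refine ⟨σ v, ?_⟩
      funext u
      by_cases hu : u = v
      · subst hu; simp
      · simp [Function.update_of_ne hu, h u hu]
    · rintro ⟨c, rfl⟩ u hu
      simp [Function.update_of_ne hu]
  rw [h, Finset.sum_image]
  intro a _ b _ hab
  have := congrFun hab v
  simpa using this

variable (G : SimpleGraph V) [DecidableRel G.Adj] (β : ℝ)

lemma potts_pos [NeZero q] (σ : V → Fin q) : 0 < potts G β σ := by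
  unfold potts
  exact div_pos (Real.exp_pos _) (Finset.sum_pos (fun _ _ => Real.exp_pos _) ⟨fun _ => 0, mem_univ _⟩)

/-- conditional expectation at `v` -/
noncomputable def avg (v : V) (f : (V → Fin q) → ℝ) (σ : V → Fin q) : ℝ :=
  (∑ c : Fin q, potts G β (Function.update σ v c) * f (Function.update σ v c)) /
    ∑ c : Fin q, potts G β (Function.update σ v c)

lemma step_eq (μ : (V → Fin q) → ℝ) (v : V) (τ : V → Fin q) :
    step G β μ v τ = (∑ c : Fin q, μ (Function.update τ v c)) *
      (potts G β τ / ∑ c : Fin q, potts G β (Function.update τ v c)) := by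
  unfold step heatBath
  have h1 : ∀ σ : V → Fin q, (μ σ * if ∀ u, u ≠ v → τ u = σ u then
      potts G β τ / ∑ c : Fin q, potts G β (Function.update σ v c) else 0)
      = if ∀ u, u ≠ v → τ u = σ u then
        μ σ * (potts G β τ / ∑ c : Fin q, potts G β (Function.update σ v c)) else 0 := by
    intro σ
    split_ifs <;> simp
  simp_rw [h1]
  rw [sum_agree τ v (fun σ => μ σ * (potts G β τ / ∑ c : Fin q, potts G β (Function.update σ v c)))]
  simp only [Function.update_idem]
  rw [Finset.sum_mul]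

lemma duality (μ f : (V → Fin q) → ℝ) (v : V) :
    ∑ τ, step G β μ v τ * f τ = ∑ σ, μ σ * avg G β v f σ := by
  unfold step heatBath avg
  simp_rw [Finset.sum_mul]
  rw [Finset.sum_comm]
  refine Finset.sum_congr rfl fun σ _ => ?_
  have h1 : ∀ τ : V → Fin q, ((μ σ * if ∀ u, u ≠ v → τ u = σ u then
      potts G β τ / ∑ c : Fin q, potts G β (Function.update σ v c) else 0) * f τ)
      = if ∀ u, u ≠ v → σ u = τ u then
        μ σ * ((potts G β τ * f τ) / ∑ c : Fin q, potts G β (Function.update σ v c)) else 0 := by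
    intro τ
    have : (∀ u, u ≠ v → τ u = σ u) ↔ (∀ u, u ≠ v → σ u = τ u) :=
      ⟨fun h u hu => (h u hu).symm, fun h u hu => (h u hu).symm⟩
    by_cases h : ∀ u, u ≠ v → τ u = σ u
    · rw [if_pos h, if_pos (this.1 h)]; ring
    · rw [if_neg h, if_neg (fun h' => h (this.2 h'))]; ring
  simp_rw [h1]
  rw [sum_agree σ v (fun τ => μ σ * ((potts G β τ * f τ) / ∑ c : Fin q, potts G β (Function.update σ v c)))]
  rw [← Finset.mul_sum, ← Finset.sum_div]

lemma avg_one [NeZero q] (v : V) (σ : V → Fin q) : avg G β v (fun _ => 1) σ = 1 := by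
  unfold avg
  simp only [mul_one]
  apply div_self
  exact (Finset.sum_pos (fun c _ => potts_pos G β _) ⟨0, mem_univ _⟩).ne'

lemma sum_potts [NeZero q] : ∑ σ : V → Fin q, potts G β σ = 1 := by
  unfold potts
  rw [← Finset.sum_div]
  apply div_self
  exact (Finset.sum_pos (fun _ _ => Real.exp_pos _) ⟨fun _ => 0, mem_univ _⟩).ne'

lemma sum_step [NeZero q] (μ : (V → Fin q) → ℝ) (v : V) :
    ∑ τ, step G β μ v τ = ∑ τ, μ τ := by
  have := duality G β μ (fun _ => 1) v
  simpa [avg_one] using this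

end General

section TV
variable {Ω : Type} [Fintype Ω] [DecidableEq Ω]

lemma le_tv (μ ν : Ω → ℝ) (A : Finset Ω) :
    |∑ σ ∈ A, μ σ - ∑ σ ∈ A, ν σ| ≤ tvDist μ ν :=
  le_ciSup (f := fun A : Finset Ω => |∑ σ ∈ A, μ σ - ∑ σ ∈ A, ν σ|)
    (Set.finite_range _).bddAbove A

lemma tv_le_of_sign (μ ν : Ω → ℝ) (h : ∑ σ, μ σ = ∑ σ, ν σ) (B : Finset Ω)
    (h1 : ∀ σ ∈ B, μ σ ≤ ν σ) (h2 : ∀ σ ∉ B, ν σ ≤ μ σ) :
    tvDist μ ν ≤ ∑ σ ∈ B, ν σ - ∑ σ ∈ B, μ σ := by
  have key : ∀ A : Finset Ω, ∑ σ ∈ A, ν σ - ∑ σ ∈ A, μ σ ≤ ∑ σ ∈ B, ν σ - ∑ σ ∈ B, μ σ := by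
    intro A
    rw [← Finset.sum_sub_distrib, ← Finset.sum_sub_distrib]
    calc ∑ σ ∈ A, (ν σ - μ σ) ≤ ∑ σ ∈ A, (if σ ∈ B then (ν σ - μ σ) else 0) := by
          refine Finset.sum_le_sum fun σ _ => ?_
          split_ifs with hb
          · exact le_rfl
          · have := h2 σ hb; linarith
      _ ≤ ∑ σ, (if σ ∈ B then (ν σ - μ σ) else 0) := by
          refine Finset.sum_le_univ_sum_of_nonneg fun σ => ?_
          split_ifs with hb
          · have := h1 σ hb; linarith
          · exact le_rfl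
      _ = ∑ σ ∈ B, (ν σ - μ σ) := by
          rw [← Finset.sum_filter]; simp
  refine ciSup_le fun A => ?_
  rw [abs_le]
  constructor
  · have := key A; linarith
  · have h3 := key Aᶜ
    have h4 := Finset.sum_add_sum_compl A μ
    have h5 := Finset.sum_add_sum_compl A ν
    linarith

end TV

end Pool.Agent.Helper41.Potts
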