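import Pool.Agent.Helper41.Potts.Signs

open Finset

namespace Pool.Agent.Helper41.Potts

variable {q : ℕ}

lemma potts_gam (β : ℝ) (hq : 3 ≤ q) (hxq : 2 * (q : ℝ) ≤ Real.exp β)
    (hroot : (q : ℝ) * (Real.exp β + q - 1) ^ 7 =
      (2 * Real.exp β + q - 2) * (Real.exp β ^ 2 + 2 * Real.exp β + q - 3) * Real.exp β ^ 5)
    (g : Fin q) (σ : Fin 11 → Fin q) (h : Gam g σ) :
    potts tree β σ = (ps (Real.exp β) (σ 0) (σ 1) * ps (Real.exp β) (σ 0) (σ 2) *
      ps (Real.exp β) (σ 0) (σ 3) * ps (Real.exp β) (σ 0) (σ 4) * ps (Real.exp β) (σ 1) g) /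
      (((2 * Real.exp β + q - 2) * (Real.exp β ^ 2 + 2 * Real.exp β + q - 3)) *
        (Real.exp β + q - 1) ^ 3) := by
  have hq' : (3 : ℝ) ≤ q := by exact_mod_cast hq
  rw [potts_eq, sum_W _ (by omega)]
  set x := Real.exp β with hx
  have hx0 : 0 < x := by linarith
  obtain ⟨h5, h6, h7, h8, h9, h10⟩ := h
  have hW : W x σ = (ps x (σ 0) (σ 1) * ps x (σ 0) (σ 2) *
      ps x (σ 0) (σ 3) * ps x (σ 0) (σ 4) * ps x (σ 1) g) * x ^ 5 := by
    unfold W
    rw [h5, h6, h7, h8, h9, h10]
    have : ps x g g = x := by simp [ps]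
    rw [this]; ring
  rw [hW]
  have hQ : 0 < x + q - 1 := by linarith
  have h2 : (q : ℝ) * (x + q - 1) ^ 10 = ((2 * x + q - 2) * (x ^ 2 + 2 * x + q - 3)) *
      (x + q - 1) ^ 3 * x ^ 5 := by
    calc (q : ℝ) * (x + q - 1) ^ 10 = ((q : ℝ) * (x + q - 1) ^ 7) * (x + q - 1) ^ 3 := by ring
      _ = _ := by rw [hroot]; ring
  rw [h2, mul_div_mul_right]
  positivity

lemma lw_gam (x : ℝ) (g : Fin q) (σ : Fin 11 → Fin q) (h : Gam g σ) :
    lw x g σ = (ps x (σ 0) (σ 1) * ps x (σ 0) (σ 2) * ps x (σ 0) (σ 3) * ps x (σ 0) (σ 4) *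
      ps x (σ 1) g) * (ps x g (σ 2) * ps x g (σ 3) * ps x g (σ 4) * ps x (σ 0) g) /
      ((S4 x g (σ 2) (σ 3) (σ 4) * S2 x (σ 0) g) * (x + q - 1) ^ 3) := by
  obtain ⟨h5, h6, h7, h8, h9, h10⟩ := h
  unfold lw II
  rw [h5, h6, h7, h8, h9, h10, dl_self]
  simp only [div_eq_mul_inv, mul_inv, ← inv_pow]
  ring

lemma lw_not_gam (x : ℝ) (g : Fin q) (σ : Fin 11 → Fin q) (h : ¬ Gam g σ) :
    lw x g σ = 0 := by
  have : II g σ = 0 := by
    unfold II dl
    by_contra hc
    apply h
    unfold Gam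
    by_contra h2
    apply hc
    by_cases h5 : σ 5 = g
    · by_cases h6 : σ 6 = g
      · by_cases h7 : σ 7 = g
        · by_cases h8 : σ 8 = g
          · by_cases h9 : σ 9 = g
            · by_cases h10 : σ 10 = g
              · exact absurd ⟨h5, h6, h7, h8, h9, h10⟩ h2
              · simp [h10]
            · simp [h9]
          · simp [h8]
        · simp [h7]
      · simp [h6]
    · simp [h5]
  unfold lw
  rw [this, mul_zero]

theorem main (hq : 3 ≤ q) : ∃ β : ℝ, 0 < β ∧ ∀ g : Fin q,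
    tvDist (law tree β g [2, 3, 4, 0, 1]) (potts tree β) <
      tvDist (law tree β g [1, 2, 3, 4, 0, 1]) (potts tree β) := by
  obtain ⟨x, hxq, hroot⟩ := ivt_root hq
  have hq' : (3 : ℝ) ≤ q := by exact_mod_cast hq
  have hx6 : 6 ≤ x := by linarith
  have hx : 0 < x := by linarith
  have hexp : Real.exp (Real.log x) = x := Real.exp_log hx
  refine ⟨Real.log x, Real.log_pos (by linarith), fun g => ?_⟩
  have hNZ : NeZero q := ⟨by omega⟩
  set β := Real.log x with hβ
  have hQ : 0 < x + q - 1 := by linarith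
  -- total masses
  have mass_w : ∑ σ, law tree β g [2, 3, 4, 0, 1] σ = ∑ σ : Fin 11 → Fin q, potts tree β σ := by
    rw [sum_potts]
    have := sum_law β g [2, 3, 4, 0, 1] (fun _ => 1)
    simp only [mul_one] at this
    rw [this]
    have hone : ∀ v : Fin 11, avg tree β v (fun _ => 1) = (fun _ : Fin 11 → Fin q => (1 : ℝ)) :=
      fun v => avg_const_coord β v _ (by intros; rfl)
    simp [hone]
  -- signs
  have hin : ∀ σ ∈ BB g, law tree β g [2, 3, 4, 0, 1] σ ≤ potts tree β σ := by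
    intro σ hσ
    rw [law_w, hexp]
    by_cases hG : Gam g σ
    · have hchi : chi g (σ 0) (σ 2) (σ 3) (σ 4) := by
        unfold BB at hσ
        rw [mem_filter] at hσ
        rcases hσ.2 with h | h
        · exact absurd hG h
        · exact h
      rw [lw_gam x g σ hG, potts_gam β hq (by rw [hexp]; exact hxq) (by rw [hexp]; exact hroot)
        g σ hG, hexp]
      have s := sign_in hq hxq g (σ 0) (σ 2) (σ 3) (σ 4) hchi
      have p0 : 0 < ps x (σ 0) (σ 1) * ps x (σ 0) (σ 2) * ps x (σ 0) (σ 3) * ps x (σ 0) (σ 4) *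
          ps x (σ 1) g := by
        have := fun a b => ps_pos (q := q) hx a b
        have h1 := this (σ 0) (σ 1)
        have h2 := this (σ 0) (σ 2)
        have h3 := this (σ 0) (σ 3)
        have h4 := this (σ 0) (σ 4)
        have h5 := this (σ 1) g
        positivity
      have p1 := S4_pos hx g (σ 2) (σ 3) (σ 4)
      have p2 := S2_pos hx (σ 0) g
      have p3 : 0 < (2 * x + q - 2) * (x ^ 2 + 2 * x + q - 3) := by
        apply mul_pos <;> nlinarith
      rw [div_le_div_iff₀ (by positivity) (by positivity)]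
      have p4 : 0 < (x + q - 1) ^ 3 := by positivity
      have := mul_le_mul_of_nonneg_left s (mul_pos p0 p4).le
      nlinarith [this]
    · rw [lw_not_gam x g σ hG]
      exact (potts_pos tree β σ).le
  have hout : ∀ σ ∉ BB g, potts tree β σ ≤ law tree β g [2, 3, 4, 0, 1] σ := by
    intro σ hσ
    rw [law_w, hexp]
    have hh : Gam g σ ∧ ¬ chi g (σ 0) (σ 2) (σ 3) (σ 4) := by
      unfold BB at hσ
      rw [mem_filter] at hσ
      push Not at hσ
      exact hσ (mem_univ _)
    obtain ⟨hG, hchi⟩ := hh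
    rw [lw_gam x g σ hG, potts_gam β hq (by rw [hexp]; exact hxq) (by rw [hexp]; exact hroot)
      g σ hG, hexp]
    have s := sign_out hq hxq g (σ 0) (σ 2) (σ 3) (σ 4) hchi
    have p0 : 0 < ps x (σ 0) (σ 1) * ps x (σ 0) (σ 2) * ps x (σ 0) (σ 3) * ps x (σ 0) (σ 4) *
        ps x (σ 1) g := by
      have := fun a b => ps_pos (q := q) hx a b
      have h1 := this (σ 0) (σ 1)
      have h2 := this (σ 0) (σ 2)
      have h3 := this (σ 0) (σ 3)
      have h4 := this (σ 0) (σ 4)
      have h5 := this (σ 1) g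
      positivity
    have p1 := S4_pos hx g (σ 2) (σ 3) (σ 4)
    have p2 := S2_pos hx (σ 0) g
    have p3 : 0 < (2 * x + q - 2) * (x ^ 2 + 2 * x + q - 3) := by
      apply mul_pos <;> nlinarith
    rw [div_le_div_iff₀ (by positivity) (by positivity)]
    have p4 : 0 < (x + q - 1) ^ 3 := by positivity
    have := mul_le_mul_of_nonneg_left s (mul_pos p0 p4).le
    nlinarith [this]
  have upper := tv_le_of_sign _ _ mass_w (BB g) hin hout
  have lower := le_tv (law tree β g [1, 2, 3, 4, 0, 1]) (potts tree β) (BB g)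
  have lower' : ∑ σ ∈ BB g, potts tree β σ - ∑ σ ∈ BB g, law tree β g [1, 2, 3, 4, 0, 1] σ ≤
      tvDist (law tree β g [1, 2, 3, 4, 0, 1]) (potts tree β) := by
    refine le_trans ?_ lower
    rw [abs_sub_comm]
    exact le_abs_self _
  -- comparison of the probabilities of the event
  have gamg : Gam g (fun _ => g) := ⟨rfl, rfl, rfl, rfl, rfl, rfl⟩
  have Ew : ∑ σ ∈ BB g, law tree β g [2, 3, 4, 0, 1] σ =
      ∑ a, ∑ b, ∑ d, rho x g a * rho x g b * rho x g d * phi x g g a b d := by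
    rw [sum_BB, sum_law]
    simp only [List.foldr_cons, List.foldr_nil]
    rw [F4_eq β g _ gamg rfl, hexp]
  have Ev : ∑ σ ∈ BB g, law tree β g [1, 2, 3, 4, 0, 1] σ =
      ∑ e, (ps x g e * ps x e g / S2 x g g) *
        ∑ a, ∑ b, ∑ d, rho x g a * rho x g b * rho x g d * phi x g e a b d := by
    rw [sum_BB, sum_law]
    simp only [List.foldr_cons, List.foldr_nil]
    rw [avg_ratio, hexp]
    refine Finset.sum_congr rfl fun e _ => ?_
    rw [F4_eq β g _ (gam_update g _ gamg 1 (by simp) e) (by simp), hexp]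
    rw [ratio_one hx]
    simp
  have diff : ∑ σ ∈ BB g, law tree β g [2, 3, 4, 0, 1] σ -
      ∑ σ ∈ BB g, law tree β g [1, 2, 3, 4, 0, 1] σ =
      ∑ a, ∑ b, ∑ d, rho x g a * rho x g b * rho x g d * gap x g a b d := by
    rw [Ew, Ev]
    have e1 : ∑ e, (ps x g e * ps x e g / S2 x g g) *
        ∑ a, ∑ b, ∑ d, rho x g a * rho x g b * rho x g d * phi x g e a b d =
        ∑ a, ∑ b, ∑ d, rho x g a * rho x g b * rho x g d *
          ∑ e, (ps x g e * ps x e g / S2 x g g) * phi x g e a b d := by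
      simp_rw [Finset.mul_sum]
      rw [Finset.sum_comm]
      refine Finset.sum_congr rfl fun a _ => ?_
      rw [Finset.sum_comm]
      refine Finset.sum_congr rfl fun b _ => ?_
      rw [Finset.sum_comm]
      refine Finset.sum_congr rfl fun d _ => ?_
      refine Finset.sum_congr rfl fun e _ => ?_
      ring
    rw [e1]
    simp_rw [← Finset.sum_sub_distrib, ← mul_sub]
    rfl
  have hrho : ∀ a : Fin q, 0 < rho x g a := fun a => div_pos (ps_pos hx g a) hQ
  have pos : 0 < ∑ a, ∑ b, ∑ d, rho x g a * rho x g b * rho x g d * gap x g a b d := by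
    obtain ⟨m, t, hm, ht, hmt⟩ : ∃ m t : Fin q, m ≠ g ∧ t ≠ g ∧ t ≠ m := by
      have hcard : 1 < (Finset.univ.erase g : Finset (Fin q)).card := by
        rw [Finset.card_erase_of_mem (mem_univ _)]
        simp; omega
      obtain ⟨m, hm, t, ht, hne⟩ := Finset.one_lt_card.1 hcard
      exact ⟨m, t, (Finset.mem_erase.1 hm).1, (Finset.mem_erase.1 ht).1, hne.symm⟩
    have nn : ∀ a b d : Fin q, 0 ≤ rho x g a * rho x g b * rho x g d * gap x g a b d := by
      intro a b d
      have h1 := hrho a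
      have h2 := hrho b
      have h3 := hrho d
      have h4 := gap_nonneg hq hxq g a b d
      positivity
    refine Finset.sum_pos' (fun a _ => Finset.sum_nonneg fun b _ =>
      Finset.sum_nonneg fun d _ => nn a b d) ⟨m, mem_univ _, ?_⟩
    refine Finset.sum_pos' (fun b _ => Finset.sum_nonneg fun d _ => nn m b d) ⟨m, mem_univ _, ?_⟩
    refine Finset.sum_pos' (fun d _ => nn m m d) ⟨t, mem_univ _, ?_⟩
    have h1 := hrho m
    have h3 := hrho t
    have h4 := gap_B hq hxq g m t hm ht hmt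
    positivity
  linarith

end Pool.Agent.Helper41.Potts
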