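import Pool.Agent.Helper41.Potts.Sums

open Finset

namespace Pool.Agent.Helper41.Potts

variable {q : ℕ}

/-! partition function by leaf removal -/

lemma sum_update {V : Type} [Fintype V] [DecidableEq V] (j : V) (F : (V → Fin q) → ℝ) :
    ∑ σ : V → Fin q, ∑ c : Fin q, F (Function.update σ j c) = q * ∑ σ : V → Fin q, F σ := by
  rw [← Fintype.sum_prod_type' (f := fun (σ : V → Fin q) (c : Fin q) => F (Function.update σ j c))]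
  have : ∑ p : (V → Fin q) × Fin q, F (Function.update p.1 j p.2)
      = ∑ p : (V → Fin q) × Fin q, F p.1 := by
    refine Fintype.sum_bijective
      (fun p : (V → Fin q) × Fin q => (Function.update p.1 j p.2, p.1 j)) ?_ _ _ (fun p => rfl)
    apply Function.Involutive.bijective
    rintro ⟨σ, c⟩
    simp
  rw [this, Fintype.sum_prod_type]
  simp [Finset.mul_sum]

lemma leaf_sum {V : Type} [Fintype V] [DecidableEq V] (x : ℝ) (i j : V) (hij : i ≠ j)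
    (F : (V → Fin q) → ℝ) (hF : ∀ σ c, F (Function.update σ j c) = F σ) :
    (q : ℝ) * ∑ σ : V → Fin q, F σ * ps x (σ i) (σ j) = (x + q - 1) * ∑ σ : V → Fin q, F σ := by
  rw [← sum_update j]
  have h : ∀ (σ : V → Fin q) (c : Fin q), F (Function.update σ j c) *
      ps x (Function.update σ j c i) (Function.update σ j c j) = F σ * ps x (σ i) c := by
    intro σ c
    rw [hF, Function.update_of_ne hij, Function.update_self]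
  simp_rw [h, ← Finset.mul_sum, sum_ps1', mul_comm _ (x + (q : ℝ) - 1), ← Finset.mul_sum]

lemma sum_W (x : ℝ) (hq : 0 < q) :
    ∑ σ : Fin 11 → Fin q, W x σ = q * (x + q - 1) ^ 10 := by
  have hq' : (q : ℝ) ≠ 0 := by positivity
  have e0 : ∑ σ : Fin 11 → Fin q, (1 : ℝ) = (q : ℝ) ^ 11 := by simp
  have e1 := leaf_sum (q := q) x (0 : Fin 11) 1 (by decide) (fun _ => 1) (by intros; rfl)
  have e2 := leaf_sum (q := q) x (0 : Fin 11) 2 (by decide) (fun σ => 1 * ps x (σ 0) (σ 1))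
    (by intros; simp)
  have e3 := leaf_sum (q := q) x (0 : Fin 11) 3 (by decide)
    (fun σ => 1 * ps x (σ 0) (σ 1) * ps x (σ 0) (σ 2))
    (by intros; simp)
  have e4 := leaf_sum (q := q) x (0 : Fin 11) 4 (by decide)
    (fun σ => 1 * ps x (σ 0) (σ 1) * ps x (σ 0) (σ 2) * ps x (σ 0) (σ 3))
    (by intros; simp)
  have e5 := leaf_sum (q := q) x (1 : Fin 11) 5 (by decide)
    (fun σ => 1 * ps x (σ 0) (σ 1) * ps x (σ 0) (σ 2) * ps x (σ 0) (σ 3) * ps x (σ 0) (σ 4))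
    (by intros; simp)
  have e6 := leaf_sum (q := q) x (5 : Fin 11) 6 (by decide)
    (fun σ => 1 * ps x (σ 0) (σ 1) * ps x (σ 0) (σ 2) * ps x (σ 0) (σ 3) * ps x (σ 0) (σ 4) *
      ps x (σ 1) (σ 5))
    (by intros; simp)
  have e7 := leaf_sum (q := q) x (6 : Fin 11) 7 (by decide)
    (fun σ => 1 * ps x (σ 0) (σ 1) * ps x (σ 0) (σ 2) * ps x (σ 0) (σ 3) * ps x (σ 0) (σ 4) *
      ps x (σ 1) (σ 5) * ps x (σ 5) (σ 6))
    (by intros; simp)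
  have e8 := leaf_sum (q := q) x (7 : Fin 11) 8 (by decide)
    (fun σ => 1 * ps x (σ 0) (σ 1) * ps x (σ 0) (σ 2) * ps x (σ 0) (σ 3) * ps x (σ 0) (σ 4) *
      ps x (σ 1) (σ 5) * ps x (σ 5) (σ 6) * ps x (σ 6) (σ 7))
    (by intros; simp)
  have e9 := leaf_sum (q := q) x (8 : Fin 11) 9 (by decide)
    (fun σ => 1 * ps x (σ 0) (σ 1) * ps x (σ 0) (σ 2) * ps x (σ 0) (σ 3) * ps x (σ 0) (σ 4) *
      ps x (σ 1) (σ 5) * ps x (σ 5) (σ 6) * ps x (σ 6) (σ 7) * ps x (σ 7) (σ 8))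
    (by intros; simp)
  have e10 := leaf_sum (q := q) x (9 : Fin 11) 10 (by decide)
    (fun σ => 1 * ps x (σ 0) (σ 1) * ps x (σ 0) (σ 2) * ps x (σ 0) (σ 3) * ps x (σ 0) (σ 4) *
      ps x (σ 1) (σ 5) * ps x (σ 5) (σ 6) * ps x (σ 6) (σ 7) * ps x (σ 7) (σ 8) *
      ps x (σ 8) (σ 9))
    (by intros; simp)
  have hW : ∀ σ : Fin 11 → Fin q, W x σ = 1 * ps x (σ 0) (σ 1) * ps x (σ 0) (σ 2) *
      ps x (σ 0) (σ 3) * ps x (σ 0) (σ 4) * ps x (σ 1) (σ 5) * ps x (σ 5) (σ 6) *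
      ps x (σ 6) (σ 7) * ps x (σ 7) (σ 8) * ps x (σ 8) (σ 9) * ps x (σ 9) (σ 10) := by
    intro σ; unfold W; ring
  simp_rw [hW]
  have key : (q : ℝ) ^ 10 * ∑ σ : Fin 11 → Fin q, (1 * ps x (σ 0) (σ 1) * ps x (σ 0) (σ 2) *
      ps x (σ 0) (σ 3) * ps x (σ 0) (σ 4) * ps x (σ 1) (σ 5) * ps x (σ 5) (σ 6) *
      ps x (σ 6) (σ 7) * ps x (σ 7) (σ 8) * ps x (σ 8) (σ 9) * ps x (σ 9) (σ 10))
      = (q : ℝ) ^ 10 * (q * (x + q - 1) ^ 10) := by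
    set Q : ℝ := x + q - 1 with hQ
    have f2 : (q : ℝ) ^ 10 * ∑ σ : Fin 11 → Fin q, (1 * ps x (σ 0) (σ 1) * ps x (σ 0) (σ 2) *
      ps x (σ 0) (σ 3) * ps x (σ 0) (σ 4) * ps x (σ 1) (σ 5) * ps x (σ 5) (σ 6) *
      ps x (σ 6) (σ 7) * ps x (σ 7) (σ 8) * ps x (σ 8) (σ 9) * ps x (σ 9) (σ 10))
      = (q : ℝ) ^ 9 * (q * ∑ σ : Fin 11 → Fin q, (1 * ps x (σ 0) (σ 1) * ps x (σ 0) (σ 2) *
      ps x (σ 0) (σ 3) * ps x (σ 0) (σ 4) * ps x (σ 1) (σ 5) * ps x (σ 5) (σ 6) *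
      ps x (σ 6) (σ 7) * ps x (σ 7) (σ 8) * ps x (σ 8) (σ 9) * ps x (σ 9) (σ 10))) := by ring
    rw [f2, e10]
    have step : ∀ (n : ℕ) (A B : ℝ), (q : ℝ) * A = Q * B →
        (q : ℝ) ^ (n + 1) * (Q * A) = (q : ℝ) ^ n * (Q * (Q * B)) := by
      intro n A B h
      have : (q : ℝ) ^ (n + 1) * (Q * A) = (q : ℝ) ^ n * (Q * ((q : ℝ) * A)) := by ring
      rw [this, h]
    have s9 := e9
    have t9 : (q : ℝ) ^ 9 * (Q * ∑ σ : Fin 11 → Fin q, (1 * ps x (σ 0) (σ 1) * ps x (σ 0) (σ 2) *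
      ps x (σ 0) (σ 3) * ps x (σ 0) (σ 4) * ps x (σ 1) (σ 5) * ps x (σ 5) (σ 6) *
      ps x (σ 6) (σ 7) * ps x (σ 7) (σ 8) * ps x (σ 8) (σ 9))) = (q : ℝ) ^ 8 * (Q * (Q * _)) :=
      step 8 _ _ e9
    rw [t9]
    have g8 : ∀ A B : ℝ, (q : ℝ) * A = Q * B → (q : ℝ) ^ 8 * (Q * (Q * A)) =
        (q : ℝ) ^ 7 * (Q ^ 3 * B) := by
      intro A B h
      have : (q : ℝ) ^ 8 * (Q * (Q * A)) = (q : ℝ) ^ 7 * (Q ^ 2 * ((q : ℝ) * A)) := by ring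
      rw [this, h]; ring
    rw [g8 _ _ e8]
    have g7 : ∀ A B : ℝ, (q : ℝ) * A = Q * B → (q : ℝ) ^ 7 * (Q ^ 3 * A) =
        (q : ℝ) ^ 6 * (Q ^ 4 * B) := by
      intro A B h
      have : (q : ℝ) ^ 7 * (Q ^ 3 * A) = (q : ℝ) ^ 6 * (Q ^ 3 * ((q : ℝ) * A)) := by ring
      rw [this, h]; ring
    rw [g7 _ _ e7]
    have g6 : ∀ A B : ℝ, (q : ℝ) * A = Q * B → (q : ℝ) ^ 6 * (Q ^ 4 * A) =
        (q : ℝ) ^ 5 * (Q ^ 5 * B) := by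
      intro A B h
      have : (q : ℝ) ^ 6 * (Q ^ 4 * A) = (q : ℝ) ^ 5 * (Q ^ 4 * ((q : ℝ) * A)) := by ring
      rw [this, h]; ring
    rw [g6 _ _ e6]
    have g5 : ∀ A B : ℝ, (q : ℝ) * A = Q * B → (q : ℝ) ^ 5 * (Q ^ 5 * A) =
        (q : ℝ) ^ 4 * (Q ^ 6 * B) := by
      intro A B h
      have : (q : ℝ) ^ 5 * (Q ^ 5 * A) = (q : ℝ) ^ 4 * (Q ^ 5 * ((q : ℝ) * A)) := by ring
      rw [this, h]; ring
    rw [g5 _ _ e5]
    have g4 : ∀ A B : ℝ, (q : ℝ) * A = Q * B → (q : ℝ) ^ 4 * (Q ^ 6 * A) =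
        (q : ℝ) ^ 3 * (Q ^ 7 * B) := by
      intro A B h
      have : (q : ℝ) ^ 4 * (Q ^ 6 * A) = (q : ℝ) ^ 3 * (Q ^ 6 * ((q : ℝ) * A)) := by ring
      rw [this, h]; ring
    rw [g4 _ _ e4]
    have g3 : ∀ A B : ℝ, (q : ℝ) * A = Q * B → (q : ℝ) ^ 3 * (Q ^ 7 * A) =
        (q : ℝ) ^ 2 * (Q ^ 8 * B) := by
      intro A B h
      have : (q : ℝ) ^ 3 * (Q ^ 7 * A) = (q : ℝ) ^ 2 * (Q ^ 7 * ((q : ℝ) * A)) := by ring
      rw [this, h]; ring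
    rw [g3 _ _ e3]
    have g2 : ∀ A B : ℝ, (q : ℝ) * A = Q * B → (q : ℝ) ^ 2 * (Q ^ 8 * A) =
        (q : ℝ) ^ 1 * (Q ^ 9 * B) := by
      intro A B h
      have : (q : ℝ) ^ 2 * (Q ^ 8 * A) = (q : ℝ) ^ 1 * (Q ^ 8 * ((q : ℝ) * A)) := by ring
      rw [this, h]; ring
    rw [g2 _ _ e2]
    have e1' : (q : ℝ) * ∑ σ : Fin 11 → Fin q, 1 * ps x (σ 0) (σ 1) = Q * (q : ℝ) ^ 11 := by
      rw [e1, e0]
    have : (q : ℝ) ^ 1 * (Q ^ 9 * ∑ σ : Fin 11 → Fin q, 1 * ps x (σ 0) (σ 1))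
        = Q ^ 9 * (q * ∑ σ : Fin 11 → Fin q, 1 * ps x (σ 0) (σ 1)) := by ring
    rw [this, e1']
    ring
  exact mul_left_cancel₀ (pow_ne_zero 10 hq') key

end Pool.Agent.Helper41.Potts
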