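import Pool.Agent.Helper41.Potts.Gap

open Finset

namespace Pool.Agent.Helper41.Potts

variable {q : ℕ}

lemma ivt_root (hq : 3 ≤ q) : ∃ x : ℝ, 2 * (q : ℝ) ≤ x ∧
    (q : ℝ) * (x + q - 1) ^ 7 = (2 * x + q - 2) * (x ^ 2 + 2 * x + q - 3) * x ^ 5 := by
  have hq' : (3 : ℝ) ≤ q := by exact_mod_cast hq
  set p : ℝ := (q : ℝ) with hp
  obtain ⟨w, hw⟩ : ∃ w, p = 3 + w := ⟨p - 3, by ring⟩
  have hw0 : 0 ≤ w := by linarith
  set f : ℝ → ℝ := fun x => p * (x + p - 1) ^ 7 - (2 * x + p - 2) * (x ^ 2 + 2 * x + p - 3) * x ^ 5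
    with hf
  have hcont : ContinuousOn f (Set.Icc (2 * p) (100 * p)) := by
    apply Continuous.continuousOn
    rw [hf]
    fun_prop
  have hle : 2 * p ≤ 100 * p := by linarith
  have h := intermediate_value_Icc' hle hcont
  have h0 : (0 : ℝ) ∈ Set.Icc (f (100 * p)) (f (2 * p)) := by
    constructor
    · rw [hf]
      simp only
      have : p * (100 * p + p - 1) ^ 7 ≤
          (2 * (100 * p) + p - 2) * ((100 * p) ^ 2 + 2 * (100 * p) + p - 3) * (100 * p) ^ 5 := by
        have h1 : (100 * p + p - 1) ^ 7 ≤ (101 * p) ^ 7 := by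
          apply pow_le_pow_left₀ <;> linarith
        have h2 : p * (101 * p) ^ 7 ≤ (200 * p) * (100 * p) ^ 2 * (100 * p) ^ 5 := by
          have : 0 ≤ p ^ 8 := by positivity
          nlinarith
        have h3 : (200 * p) * (100 * p) ^ 2 ≤
            (2 * (100 * p) + p - 2) * ((100 * p) ^ 2 + 2 * (100 * p) + p - 3) := by
          apply mul_le_mul <;> nlinarith
        calc p * (100 * p + p - 1) ^ 7 ≤ p * (101 * p) ^ 7 := by
              apply mul_le_mul_of_nonneg_left h1; linarith
          _ ≤ _ := h2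
          _ ≤ _ := by
              apply mul_le_mul_of_nonneg_right h3; positivity
      linarith
    · rw [hf]
      simp only
      rw [hw]
      ring_nf
      positivity
  obtain ⟨x, hx, hfx⟩ := h h0
  refine ⟨x, hx.1, ?_⟩
  rw [hf] at hfx
  simp only at hfx
  linarith

lemma fact1 {x : ℝ} (hq : 3 ≤ q) (hxq : 2 * (q : ℝ) ≤ x) (g a b d : Fin q)
    (hA : ¬ (a ≠ g ∧ b = a ∧ d = a)) :
    S4 x g a b d ≤ (x ^ 2 + 2 * x + q - 3) * (ps x g a * ps x g b * ps x g d) := by
  have hq' : (3 : ℝ) ≤ q := by exact_mod_cast hq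
  have hx6 : 6 ≤ x := by linarith
  have hx : 0 < x := by linarith
  set p : ℝ := (q : ℝ) with hp
  obtain ⟨u, hu⟩ : ∃ u, x = 2 * p + u := ⟨x - 2 * p, by ring⟩
  obtain ⟨w, hw⟩ : ∃ w, p = 3 + w := ⟨p - 3, by ring⟩
  have hu0 : 0 ≤ u := by linarith
  have hw0 : 0 ≤ w := by linarith
  rw [S4_eq, ← hp]
  have pos : ∀ A B : ℝ, 0 ≤ B - A → A ≤ B := fun A B h => by linarith
  by_cases h1 : g = a
  · subst h1
    by_cases h2 : g = b
    · subst h2
      by_cases h3 : g = d
      · subst h3
        simp only [dl, ps, if_true]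
        apply pos; rw [hu, hw]; ring_nf; positivity
      · simp only [dl, ps, if_true, if_neg h3]
        apply pos; rw [hu, hw]; ring_nf; positivity
    · by_cases h3 : g = d
      · subst h3
        simp only [dl, ps, if_true, if_neg h2, if_neg (Ne.symm h2)]
        apply pos; rw [hu, hw]; ring_nf; positivity
      · by_cases h4 : b = d
        · subst h4
          simp only [dl, ps, if_true, if_neg h2]
          apply pos; rw [hu, hw]; ring_nf; positivity
        · simp only [dl, ps, if_true, if_neg h2, if_neg h3, if_neg h4]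
          apply pos; rw [hu, hw]; ring_nf; positivity
  · by_cases h2 : g = b
    · subst h2
      by_cases h3 : g = d
      · subst h3
        simp only [dl, ps, if_true, if_neg h1, if_neg (Ne.symm h1)]
        apply pos; rw [hu, hw]; ring_nf; positivity
      · by_cases h4 : a = d
        · subst h4
          simp only [dl, ps, if_true, if_neg h1, if_neg (Ne.symm h1)]
          apply pos; rw [hu, hw]; ring_nf; positivity
        · simp only [dl, ps, if_true, if_neg h1, if_neg (Ne.symm h1), if_neg h3, if_neg h4]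
          apply pos; rw [hu, hw]; ring_nf; positivity
    · by_cases h3 : g = d
      · subst h3
        by_cases h4 : a = b
        · subst h4
          simp only [dl, ps, if_true, if_neg h1, if_neg (Ne.symm h1)]
          apply pos; rw [hu, hw]; ring_nf; positivity
        · simp only [dl, ps, if_true, if_neg h1, if_neg (Ne.symm h1), if_neg h2,
            if_neg (Ne.symm h2), if_neg h4]
          apply pos; rw [hu, hw]; ring_nf; positivity
      · by_cases h4 : a = b
        · subst h4
          by_cases h5 : a = d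
          · subst h5
            exact absurd ⟨Ne.symm h1, rfl, rfl⟩ hA
          · simp only [dl, ps, if_true, if_neg h1, if_neg h3, if_neg h5]
            apply le_of_eq; ring
        · by_cases h5 : a = d
          · subst h5
            simp only [dl, ps, if_true, if_neg h1, if_neg h2, if_neg h4, if_neg (Ne.symm h4)]
            apply le_of_eq; ring
          · by_cases h6 : b = d
            · subst h6
              simp only [dl, ps, if_true, if_neg h1, if_neg h2, if_neg h4]
              apply le_of_eq; ring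
            · simp only [dl, ps, if_neg h1, if_neg h2, if_neg h3, if_neg h4, if_neg h5, if_neg h6]
              apply pos; rw [hu, hw]; ring_nf; positivity

lemma fact2 {x : ℝ} (hq : 3 ≤ q) (hxq : 2 * (q : ℝ) ≤ x) (c g : Fin q) :
    S2 x c g ≤ (2 * x + q - 2) * ps x c g := by
  have hq' : (3 : ℝ) ≤ q := by exact_mod_cast hq
  have hx6 : 6 ≤ x := by linarith
  rw [S2_eq]
  unfold ps
  split_ifs
  · nlinarith
  · linarith

lemma sign_out {x : ℝ} (hq : 3 ≤ q) (hxq : 2 * (q : ℝ) ≤ x) (g c a b d : Fin q)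
    (h : ¬ chi g c a b d) : S4 x g a b d * S2 x c g ≤
      ((2 * x + q - 2) * (x ^ 2 + 2 * x + q - 3)) *
        (ps x g a * ps x g b * ps x g d * ps x c g) := by
  have hq' : (3 : ℝ) ≤ q := by exact_mod_cast hq
  have hx : 0 < x := by linarith
  have hA : ¬ (a ≠ g ∧ b = a ∧ d = a) := fun hh => h (Or.inl hh)
  have f1 := fact1 hq hxq g a b d hA
  have f2 := fact2 hq hxq c g
  have p1 := S4_pos hx g a b d
  have p2 := S2_pos hx c g
  calc S4 x g a b d * S2 x c g ≤ ((x ^ 2 + 2 * x + q - 3) * (ps x g a * ps x g b * ps x g d)) *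
        ((2 * x + q - 2) * ps x c g) := mul_le_mul f1 f2 p2.le (p1.le.trans f1)
    _ = _ := by ring

lemma sign_in {x : ℝ} (hq : 3 ≤ q) (hxq : 2 * (q : ℝ) ≤ x) (g c a b d : Fin q)
    (h : chi g c a b d) : ((2 * x + q - 2) * (x ^ 2 + 2 * x + q - 3)) *
        (ps x g a * ps x g b * ps x g d * ps x c g) ≤ S4 x g a b d * S2 x c g := by
  have hq' : (3 : ℝ) ≤ q := by exact_mod_cast hq
  have hx6 : 6 ≤ x := by linarith
  have hx : 0 < x := by linarith
  obtain ⟨u, hu⟩ : ∃ u, x = 2 * (q : ℝ) + u := ⟨x - 2 * (q : ℝ), by ring⟩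
  obtain ⟨w, hw⟩ : ∃ w, (q : ℝ) = 3 + w := ⟨(q : ℝ) - 3, by ring⟩
  have hu0 : 0 ≤ u := by linarith
  have hw0 : 0 ≤ w := by linarith
  have pos : ∀ A B : ℝ, 0 ≤ B - A → A ≤ B := fun A B h => by linarith
  rcases h with ⟨h1, rfl, rfl⟩ | ⟨h0, ⟨rfl, rfl, h1, h2⟩ | ⟨rfl, rfl, h1, h2⟩ | ⟨rfl, rfl, h1, h2⟩⟩
  · rw [S4_eq, S2_eq]
    simp only [dl, ps, if_true, if_neg (Ne.symm h1)]
    by_cases hc : c = g
    · subst hc
      simp only [if_true]
      apply pos; rw [hu, hw]; ring_nf; positivity
    · simp only [if_neg hc]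
      apply pos; rw [hu, hw]; ring_nf; positivity
  · rw [S4_eq, S2_eq]
    simp only [dl, ps, if_true, if_neg h0, if_neg (Ne.symm h0), if_neg h1, if_neg (Ne.symm h1),
      if_neg h2, if_neg (Ne.symm h2)]
    apply le_of_eq; ring
  · rw [S4_eq, S2_eq]
    simp only [dl, ps, if_true, if_neg h0, if_neg (Ne.symm h0), if_neg h1, if_neg (Ne.symm h1),
      if_neg h2, if_neg (Ne.symm h2)]
    apply le_of_eq; ring
  · rw [S4_eq, S2_eq]
    simp only [dl, ps, if_true, if_neg h0, if_neg (Ne.symm h0), if_neg h1, if_neg (Ne.symm h1),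
      if_neg h2, if_neg (Ne.symm h2)]
    apply le_of_eq; ring

end Pool.Agent.Helper41.Potts
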