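import Pool.Agent.Helper41.Potts.Tree

open Finset

namespace Pool.Agent.Helper41.Potts

variable {q : ℕ}

/-- Kronecker delta -/
def dl (a b : Fin q) : ℝ := if a = b then 1 else 0

lemma ps_dl (x : ℝ) (a b : Fin q) : ps x a b = 1 + (x - 1) * dl a b := by
  unfold ps dl; split_ifs <;> ring

lemma ps_comm (x : ℝ) (a b : Fin q) : ps x a b = ps x b a := by
  unfold ps; simp [eq_comm]

lemma dl_comm (a b : Fin q) : dl a b = dl b a := by
  unfold dl; simp [eq_comm]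

lemma dl_self (a : Fin q) : dl a a = 1 := by simp [dl]

lemma sum_dl_mul (a : Fin q) (f : Fin q → ℝ) : ∑ c, dl c a * f c = f a := by
  simp [dl]

lemma sum_dl (a : Fin q) : ∑ c, dl c a = 1 := by
  simp [dl]

lemma sum_one : ∑ _c : Fin q, (1 : ℝ) = q := by simp

lemma sum_ps1 (x : ℝ) (a : Fin q) : ∑ c, ps x c a = x + q - 1 := by
  simp_rw [ps_dl, Finset.sum_add_distrib, ← Finset.mul_sum, sum_dl]
  simp
  ring

lemma sum_ps1' (x : ℝ) (a : Fin q) : ∑ c, ps x a c = x + q - 1 := by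
  simp_rw [ps_comm x a]
  exact sum_ps1 x a

/-- two-point sum -/
def S2 (x : ℝ) (a b : Fin q) : ℝ := ∑ c, ps x a c * ps x c b

lemma S2_eq (x : ℝ) (a b : Fin q) :
    S2 x a b = if a = b then x ^ 2 + q - 1 else 2 * x + q - 2 := by
  unfold S2
  have h : ∀ c : Fin q, ps x a c * ps x c b
      = 1 + (x - 1) * dl c a + (x - 1) * dl c b + (x - 1) ^ 2 * (dl c a * dl c b) := by
    intro c; rw [ps_dl, ps_dl, dl_comm a c]; ring
  simp_rw [h, Finset.sum_add_distrib, ← Finset.mul_sum, sum_dl, sum_dl_mul]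
  simp only [dl]
  split_ifs <;> simp <;> ring

/-- four-point sum -/
def S4 (x : ℝ) (e a b d : Fin q) : ℝ := ∑ c, ps x c e * ps x c a * ps x c b * ps x c d

lemma S4_eq (x : ℝ) (e a b d : Fin q) :
    S4 x e a b d = q + 4 * (x - 1) +
      (x - 1) ^ 2 * (dl e a + dl e b + dl e d + dl a b + dl a d + dl b d) +
      (x - 1) ^ 3 * (dl e a * dl e b + dl e a * dl e d + dl e b * dl e d + dl a b * dl a d) +
      (x - 1) ^ 4 * (dl e a * (dl e b * dl e d)) := by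
  unfold S4
  have h : ∀ c : Fin q, ps x c e * ps x c a * ps x c b * ps x c d
      = 1 + (x - 1) * (dl c e + dl c a + dl c b + dl c d) +
      (x - 1) ^ 2 * (dl c e * dl c a + dl c e * dl c b + dl c e * dl c d + dl c a * dl c b +
        dl c a * dl c d + dl c b * dl c d) +
      (x - 1) ^ 3 * (dl c e * (dl c a * dl c b) + dl c e * (dl c a * dl c d) +
        dl c e * (dl c b * dl c d) + dl c a * (dl c b * dl c d)) +
      (x - 1) ^ 4 * (dl c e * (dl c a * (dl c b * dl c d))) := by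
    intro c; simp only [ps_dl]; ring
  simp_rw [h, Finset.sum_add_distrib, ← Finset.mul_sum, Finset.sum_add_distrib, sum_dl, sum_dl_mul]
  simp
  ring

lemma S4_pos {x : ℝ} (hx : 0 < x) (e a b d : Fin q) : 0 < S4 x e a b d := by
  unfold S4
  have := fun a b => ps_pos (q := q) hx a b
  refine Finset.sum_pos (fun c _ => ?_) ⟨e, mem_univ _⟩
  have h1 := this c e
  have h2 := this c a
  have h3 := this c b
  have h4 := this c d
  positivity

lemma S2_pos {x : ℝ} (hx : 0 < x) (a b : Fin q) : 0 < S2 x a b := by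
  unfold S2
  have := fun a b => ps_pos (q := q) hx a b
  refine Finset.sum_pos (fun c _ => ?_) ⟨a, mem_univ _⟩
  have h1 := this a c
  have h2 := this c b
  positivity

/-! ratio lemmas -/

noncomputable def ratio (x : ℝ) (v : Fin 11) (τ : Fin 11 → Fin q) : ℝ :=
  W x τ / ∑ c : Fin q, W x (Function.update τ v c)

lemma potts_ratio (β : ℝ) (v : Fin 11) (τ : Fin 11 → Fin q) :
    potts tree β τ / ∑ c : Fin q, potts tree β (Function.update τ v c) = ratio (Real.exp β) v τ := by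
  unfold ratio
  simp_rw [potts_eq]
  rw [← Finset.sum_div]
  rcases Nat.eq_zero_or_pos q with h | h
  · subst h; exact (τ 0).elim0
  · haveI : NeZero q := ⟨h.ne'⟩
    have : (∑ τ : Fin 11 → Fin q, W (Real.exp β) τ) ≠ 0 :=
      (Finset.sum_pos (fun σ _ => W_pos (Real.exp_pos β) σ) ⟨fun _ => 0, mem_univ _⟩).ne'
    rw [div_div_div_cancel_right₀ this]

lemma ratio_leaf {x : ℝ} (hx : 0 < x) (v : Fin 11) (hv : v = 2 ∨ v = 3 ∨ v = 4)
    (τ : Fin 11 → Fin q) : ratio x v τ = ps x (τ 0) (τ v) / (x + q - 1) := by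
  have hp := fun a b => ps_pos (q := q) hx a b
  unfold ratio
  rcases hv with rfl | rfl | rfl
  · have h : ∀ c : Fin q, W x (Function.update τ 2 c) =
        (ps x (τ 0) (τ 1) * ps x (τ 0) (τ 3) * ps x (τ 0) (τ 4) * ps x (τ 1) (τ 5) *
        ps x (τ 5) (τ 6) * ps x (τ 6) (τ 7) * ps x (τ 7) (τ 8) * ps x (τ 8) (τ 9) *
        ps x (τ 9) (τ 10)) * ps x (τ 0) c := by
      intro c
      simp [W, Function.update_apply]
      ring
    have h0 : W x τ = (ps x (τ 0) (τ 1) * ps x (τ 0) (τ 3) * ps x (τ 0) (τ 4) * ps x (τ 1) (τ 5) *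
        ps x (τ 5) (τ 6) * ps x (τ 6) (τ 7) * ps x (τ 7) (τ 8) * ps x (τ 8) (τ 9) *
        ps x (τ 9) (τ 10)) * ps x (τ 0) (τ 2) := by
      unfold W; ring
    rw [h0]
    simp_rw [h]
    rw [← Finset.mul_sum, mul_div_mul_left, sum_ps1']
    have h1 := hp (τ 0) (τ 1)
    have h3 := hp (τ 0) (τ 3)
    have h4 := hp (τ 0) (τ 4)
    have h5 := hp (τ 1) (τ 5)
    have h6 := hp (τ 5) (τ 6)
    have h7 := hp (τ 6) (τ 7)
    have h8 := hp (τ 7) (τ 8)
    have h9 := hp (τ 8) (τ 9)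
    have h10 := hp (τ 9) (τ 10)
    positivity
  · have h : ∀ c : Fin q, W x (Function.update τ 3 c) =
        (ps x (τ 0) (τ 1) * ps x (τ 0) (τ 2) * ps x (τ 0) (τ 4) * ps x (τ 1) (τ 5) *
        ps x (τ 5) (τ 6) * ps x (τ 6) (τ 7) * ps x (τ 7) (τ 8) * ps x (τ 8) (τ 9) *
        ps x (τ 9) (τ 10)) * ps x (τ 0) c := by
      intro c
      simp [W, Function.update_apply]
      ring
    have h0 : W x τ = (ps x (τ 0) (τ 1) * ps x (τ 0) (τ 2) * ps x (τ 0) (τ 4) * ps x (τ 1) (τ 5) *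
        ps x (τ 5) (τ 6) * ps x (τ 6) (τ 7) * ps x (τ 7) (τ 8) * ps x (τ 8) (τ 9) *
        ps x (τ 9) (τ 10)) * ps x (τ 0) (τ 3) := by
      unfold W; ring
    rw [h0]
    simp_rw [h]
    rw [← Finset.mul_sum, mul_div_mul_left, sum_ps1']
    have h1 := hp (τ 0) (τ 1)
    have h3 := hp (τ 0) (τ 2)
    have h4 := hp (τ 0) (τ 4)
    have h5 := hp (τ 1) (τ 5)
    have h6 := hp (τ 5) (τ 6)
    have h7 := hp (τ 6) (τ 7)
    have h8 := hp (τ 7) (τ 8)
    have h9 := hp (τ 8) (τ 9)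
    have h10 := hp (τ 9) (τ 10)
    positivity
  · have h : ∀ c : Fin q, W x (Function.update τ 4 c) =
        (ps x (τ 0) (τ 1) * ps x (τ 0) (τ 2) * ps x (τ 0) (τ 3) * ps x (τ 1) (τ 5) *
        ps x (τ 5) (τ 6) * ps x (τ 6) (τ 7) * ps x (τ 7) (τ 8) * ps x (τ 8) (τ 9) *
        ps x (τ 9) (τ 10)) * ps x (τ 0) c := by
      intro c
      simp [W, Function.update_apply]
      ring
    have h0 : W x τ = (ps x (τ 0) (τ 1) * ps x (τ 0) (τ 2) * ps x (τ 0) (τ 3) * ps x (τ 1) (τ 5) *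
        ps x (τ 5) (τ 6) * ps x (τ 6) (τ 7) * ps x (τ 7) (τ 8) * ps x (τ 8) (τ 9) *
        ps x (τ 9) (τ 10)) * ps x (τ 0) (τ 4) := by
      unfold W; ring
    rw [h0]
    simp_rw [h]
    rw [← Finset.mul_sum, mul_div_mul_left, sum_ps1']
    have h1 := hp (τ 0) (τ 1)
    have h3 := hp (τ 0) (τ 2)
    have h4 := hp (τ 0) (τ 3)
    have h5 := hp (τ 1) (τ 5)
    have h6 := hp (τ 5) (τ 6)
    have h7 := hp (τ 6) (τ 7)
    have h8 := hp (τ 7) (τ 8)
    have h9 := hp (τ 8) (τ 9)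
    have h10 := hp (τ 9) (τ 10)
    positivity

lemma ratio_center {x : ℝ} (hx : 0 < x) (τ : Fin 11 → Fin q) :
    ratio x 0 τ = (ps x (τ 0) (τ 1) * ps x (τ 0) (τ 2) * ps x (τ 0) (τ 3) * ps x (τ 0) (τ 4)) /
      S4 x (τ 1) (τ 2) (τ 3) (τ 4) := by
  have hp := fun a b => ps_pos (q := q) hx a b
  unfold ratio
  have h : ∀ c : Fin q, W x (Function.update τ 0 c) =
      (ps x (τ 1) (τ 5) * ps x (τ 5) (τ 6) * ps x (τ 6) (τ 7) * ps x (τ 7) (τ 8) *
      ps x (τ 8) (τ 9) * ps x (τ 9) (τ 10)) *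
      (ps x c (τ 1) * ps x c (τ 2) * ps x c (τ 3) * ps x c (τ 4)) := by
    intro c
    simp [W, Function.update_apply]
    ring
  have h0 : W x τ = (ps x (τ 1) (τ 5) * ps x (τ 5) (τ 6) * ps x (τ 6) (τ 7) * ps x (τ 7) (τ 8) *
      ps x (τ 8) (τ 9) * ps x (τ 9) (τ 10)) *
      (ps x (τ 0) (τ 1) * ps x (τ 0) (τ 2) * ps x (τ 0) (τ 3) * ps x (τ 0) (τ 4)) := by
    unfold W; ring
  rw [h0]
  simp_rw [h]
  rw [← Finset.mul_sum, mul_div_mul_left]
  · rfl
  · have h5 := hp (τ 1) (τ 5)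
    have h6 := hp (τ 5) (τ 6)
    have h7 := hp (τ 6) (τ 7)
    have h8 := hp (τ 7) (τ 8)
    have h9 := hp (τ 8) (τ 9)
    have h10 := hp (τ 9) (τ 10)
    positivity

lemma ratio_one {x : ℝ} (hx : 0 < x) (τ : Fin 11 → Fin q) :
    ratio x 1 τ = (ps x (τ 0) (τ 1) * ps x (τ 1) (τ 5)) / S2 x (τ 0) (τ 5) := by
  have hp := fun a b => ps_pos (q := q) hx a b
  unfold ratio
  have h : ∀ c : Fin q, W x (Function.update τ 1 c) =
      (ps x (τ 0) (τ 2) * ps x (τ 0) (τ 3) * ps x (τ 0) (τ 4) *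
      ps x (τ 5) (τ 6) * ps x (τ 6) (τ 7) * ps x (τ 7) (τ 8) *
      ps x (τ 8) (τ 9) * ps x (τ 9) (τ 10)) * (ps x (τ 0) c * ps x c (τ 5)) := by
    intro c
    simp [W, Function.update_apply]
    ring
  have h0 : W x τ = (ps x (τ 0) (τ 2) * ps x (τ 0) (τ 3) * ps x (τ 0) (τ 4) *
      ps x (τ 5) (τ 6) * ps x (τ 6) (τ 7) * ps x (τ 7) (τ 8) *
      ps x (τ 8) (τ 9) * ps x (τ 9) (τ 10)) * (ps x (τ 0) (τ 1) * ps x (τ 1) (τ 5)) := by
    unfold W; ring
  rw [h0]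
  simp_rw [h]
  rw [← Finset.mul_sum, mul_div_mul_left]
  · rfl
  · have h1 := hp (τ 0) (τ 2)
    have h2 := hp (τ 0) (τ 3)
    have h3 := hp (τ 0) (τ 4)
    have h6 := hp (τ 5) (τ 6)
    have h7 := hp (τ 6) (τ 7)
    have h8 := hp (τ 7) (τ 8)
    have h9 := hp (τ 8) (τ 9)
    have h10 := hp (τ 9) (τ 10)
    positivity

end Pool.Agent.Helper41.Potts
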