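import Pool.Agent.Helper41.Potts.General

open Finset

namespace Pool.Agent.Helper41.Potts

/-- the tree -/
def treeEdges : List (Fin 11 × Fin 11) :=
  [(0, 1), (0, 2), (0, 3), (0, 4), (1, 5), (5, 6), (6, 7), (7, 8), (8, 9), (9, 10)]

def tree : SimpleGraph (Fin 11) where
  Adj a b := (a, b) ∈ treeEdges ∨ (b, a) ∈ treeEdges
  symm := ⟨fun _ _ h => h.symm⟩
  loopless := ⟨by decide⟩

instance : DecidableRel tree.Adj := fun a b =>
  inferInstanceAs (Decidable ((a, b) ∈ treeEdges ∨ (b, a) ∈ treeEdges))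

lemma tree_edges : tree.edgeFinset =
    {s(0, 1), s(0, 2), s(0, 3), s(0, 4), s(1, 5), s(5, 6), s(6, 7), s(7, 8), s(8, 9), s(9, 10)} := by
  decide

lemma tree_reach (v : Fin 11) : tree.Reachable 0 v := by
  have a01 : tree.Adj 0 1 := by decide
  have a02 : tree.Adj 0 2 := by decide
  have a03 : tree.Adj 0 3 := by decide
  have a04 : tree.Adj 0 4 := by decide
  have a15 : tree.Adj 1 5 := by decide
  have a56 : tree.Adj 5 6 := by decide
  have a67 : tree.Adj 6 7 := by decide
  have a78 : tree.Adj 7 8 := by decide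
  have a89 : tree.Adj 8 9 := by decide
  have a910 : tree.Adj 9 10 := by decide
  have r1 := a01.reachable
  have r5 := r1.trans a15.reachable
  have r6 := r5.trans a56.reachable
  have r7 := r6.trans a67.reachable
  have r8 := r7.trans a78.reachable
  have r9 := r8.trans a89.reachable
  have r10 := r9.trans a910.reachable
  fin_cases v
  · exact SimpleGraph.Reachable.refl _
  · exact r1
  · exact a02.reachable
  · exact a03.reachable
  · exact a04.reachable
  · exact r5
  · exact r6
  · exact r7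
  · exact r8
  · exact r9
  · exact r10

lemma tree_isTree : tree.IsTree := by
  rw [SimpleGraph.isTree_iff_connected_and_card]
  constructor
  · refine ⟨fun u v => (tree_reach u).symm.trans (tree_reach v)⟩
  · rw [Nat.card_eq_fintype_card, ← SimpleGraph.edgeFinset_card, tree_edges, Nat.card_eq_fintype_card]
    decide

variable {q : ℕ}

/-- edge interaction -/
def ps (x : ℝ) (a b : Fin q) : ℝ := if a = b then x else 1

lemma ps_pos {x : ℝ} (hx : 0 < x) (a b : Fin q) : 0 < ps x a b := by
  unfold ps; split_ifs <;> linarith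

def W (x : ℝ) (σ : Fin 11 → Fin q) : ℝ :=
  ps x (σ 0) (σ 1) * ps x (σ 0) (σ 2) * ps x (σ 0) (σ 3) * ps x (σ 0) (σ 4) * ps x (σ 1) (σ 5) *
  ps x (σ 5) (σ 6) * ps x (σ 6) (σ 7) * ps x (σ 7) (σ 8) * ps x (σ 8) (σ 9) * ps x (σ 9) (σ 10)

lemma W_pos {x : ℝ} (hx : 0 < x) (σ : Fin 11 → Fin q) : 0 < W x σ := by
  have := fun a b => ps_pos (q := q) hx a b
  unfold W
  have h1 := this (σ 0) (σ 1)
  have h2 := this (σ 0) (σ 2)
  have h3 := this (σ 0) (σ 3)
  have h4 := this (σ 0) (σ 4)
  have h5 := this (σ 1) (σ 5)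
  have h6 := this (σ 5) (σ 6)
  have h7 := this (σ 6) (σ 7)
  have h8 := this (σ 7) (σ 8)
  have h9 := this (σ 8) (σ 9)
  have h10 := this (σ 9) (σ 10)
  positivity

lemma exp_mono (β : ℝ) (σ : Fin 11 → Fin q) :
    Real.exp (β * (monoEdges tree σ : ℝ)) = W (Real.exp β) σ := by
  have h : ∀ a b : Fin q, ps (Real.exp β) a b = Real.exp (β * ((if a = b then 1 else 0 : ℕ) : ℝ)) := by
    intro a b
    unfold ps
    split_ifs <;> simp
  unfold W monoEdges
  simp_rw [h]
  rw [Finset.card_filter, tree_edges]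
  rw [Finset.sum_insert (by decide), Finset.sum_insert (by decide), Finset.sum_insert (by decide),
    Finset.sum_insert (by decide), Finset.sum_insert (by decide), Finset.sum_insert (by decide),
    Finset.sum_insert (by decide), Finset.sum_insert (by decide), Finset.sum_insert (by decide),
    Finset.sum_singleton]
  simp only [Sym2.map_mk, Sym2.mk_isDiag_iff, Nat.cast_add, mul_add, Real.exp_add]
  ring

lemma potts_eq (β : ℝ) (σ : Fin 11 → Fin q) :
    potts tree β σ = W (Real.exp β) σ / ∑ τ : Fin 11 → Fin q, W (Real.exp β) τ := by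
  unfold potts
  simp_rw [exp_mono]

end Pool.Agent.Helper41.Potts
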